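import Pool.Agent.U937.DC.Grp
import Pool.Agent.H37.RE

/-!
# The algorithm
-/

set_option autoImplicit false

namespace Pool.Agent.U937.DC

open Pool.Agent.H665Simp (Wd inv relsN Der IsDer pr_inv pp_isDer der_iff)

variable {α : Type} [Primcodable α]

lemma pr_getD {β : Type} [Primcodable β] (d : β) {f : α → List β} {g : α → ℕ} (hf : Primrec f) (hg : Primrec g) :
    Primrec fun a => (f a).getD (g a) d := (Primrec.list_getD d).comp hf hg

lemma pr_fs {D : α → Deco} {i : α → ℕ} (hD : Primrec D) (hi : Primrec i) : Primrec fun a => fs (D a) (i a) :=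
  Primrec.fst.comp (pr_getD ([], []) (Primrec.snd.comp hD) hi)

lemma pr_rs {D : α → Deco} {i : α → ℕ} (hD : Primrec D) (hi : Primrec i) : Primrec fun a => rs (D a) (i a) :=
  Primrec.snd.comp (pr_getD ([], []) (Primrec.snd.comp hD) hi)

lemma pr_subst {f : α → List Wd} {v : α → Wd} (hf : Primrec f) (hv : Primrec v) :
    Primrec fun a => subst (f a) (v a) := by
  refine Primrec.list_flatMap hv ?_
  have h1 : Primrec fun q : α × (ℕ × Bool) => (f q.1).getD q.2.1 [] :=
    pr_getD [] (hf.comp Primrec.fst) (Primrec.fst.comp Primrec.snd)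
  exact Primrec.ite (Primrec.eq.comp (Primrec.snd.comp Primrec.snd) (Primrec.const true)) h1 (pr_inv.comp h1)

lemma pr_letter {t : α → ℕ} (ht : Primrec t) (b : Bool) : Primrec fun a => (t a, b) :=
  ht.pair (Primrec.const b)

lemma pr_com {t : α → ℕ} {f : α → Wd} (ht : Primrec t) (hf : Primrec f) : Primrec fun a => com (t a) (f a) :=
  Primrec.list_cons.comp (pr_letter ht true)
    (Primrec.list_append.comp hf (Primrec.list_cons.comp (pr_letter ht false) (pr_inv.comp hf)))

lemma pr_pw {m : α → ℕ} {f : α → Wd} (hm : Primrec m) (hf : Primrec f) : Primrec fun a => pw (m a) (f a) :=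
  Primrec.list_flatMap (Primrec.list_range.comp hm) (hf.comp Primrec.fst)

lemma pr_ext {D : α → Deco} {i : α → ℕ} (hD : Primrec D) (hi : Primrec i) : Primrec fun a => ext (D a) (i a) := by
  have hn : Primrec fun a => (D a).1.1 := Primrec.fst.comp (Primrec.fst.comp hD)
  have hR : Primrec fun a => (D a).1.2 := Primrec.snd.comp (Primrec.fst.comp hD)
  have hk : Primrec fun a => (D a).2.length := Primrec.list_length.comp (Primrec.snd.comp hD)
  refine Primrec.pair (Primrec.pair (Primrec.succ.comp hn) (Primrec.list_append.comp hR ?_)) ?_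
  · refine Primrec.list_map (pr_fs hD hi) ?_
    exact pr_com (hn.comp Primrec.fst) Primrec.snd
  · refine Primrec.list_map (Primrec.list_range.comp hk) ?_
    have hj : Primrec fun q : α × ℕ => q.2 := Primrec.snd
    have hD' : Primrec fun q : α × ℕ => D q.1 := hD.comp Primrec.fst
    have hi' : Primrec fun q : α × ℕ => i q.1 := hi.comp Primrec.fst
    have hlen : Primrec fun q : α × ℕ => (fs (D q.1) (i q.1)).length := Primrec.list_length.comp (pr_fs hD' hi')
    refine Primrec.ite (Primrec.eq.comp hj hi') ?_ (Primrec.pair (pr_fs hD' hj) (pr_rs hD' hj))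
    refine Primrec.pair ?_ ?_
    · refine Primrec.list_append.comp (pr_fs hD' hi') ?_
      exact Primrec.list_cons.comp (Primrec.list_cons.comp (pr_letter (hn.comp Primrec.fst) true) (Primrec.const []))
        (Primrec.const [])
    · refine Primrec.list_append.comp (pr_rs hD' hi') ?_
      refine Primrec.list_map (Primrec.list_range.comp hlen) ?_
      exact pr_com (hlen.comp Primrec.fst) (Primrec.list_cons.comp (pr_letter Primrec.snd true) (Primrec.const []))

lemma pr_fill {D : α → Deco} {m : α → ℕ} (hD : Primrec D) (hm : Primrec m) : Primrec fun a => fill (D a) (m a) := by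
  have hn : Primrec fun a => (D a).1.1 := Primrec.fst.comp (Primrec.fst.comp hD)
  have hR : Primrec fun a => (D a).1.2 := Primrec.snd.comp (Primrec.fst.comp hD)
  refine Primrec.pair hn (Primrec.list_append.comp hR ?_)
  refine Primrec.list_flatMap (Primrec.snd.comp hD) ?_
  refine Primrec.list_map (Primrec.fst.comp Primrec.snd) ?_
  exact pr_pw (hm.comp (Primrec.fst.comp Primrec.fst)) Primrec.snd

lemma subst_cons (f : List Wd) (l : ℕ × Bool) (v : Wd) :
    subst f (l :: v) = (if l.2 = true then f.getD l.1 [] else inv (f.getD l.1 [])) ++ subst f v := by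
  unfold subst
  rw [List.flatMap_cons]

lemma subst_append (f : List Wd) (u v : Wd) : subst f (u ++ v) = subst f u ++ subst f v := by
  unfold subst
  rw [List.flatMap_append]

/-- The elements of the subgroup generated by words are the values of the words in them. -/
lemma mem_gen_iff (p : Pres) (Y : List Wd) (g : Grp p) : g ∈ gen p Y ↔ ∃ v : Wd, g = el p (subst Y v) := by
  constructor
  · intro h
    change g ∈ Subgroup.closure _ at h
    induction h using Subgroup.closure_induction_left with
    | one => exact ⟨[], (el_nil p).symm⟩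
    | mul_left a ha b _ ih =>
      obtain ⟨y, hy, rfl⟩ := ha
      obtain ⟨v, rfl⟩ := ih
      obtain ⟨k, hk, rfl⟩ := List.getElem_of_mem hy
      refine ⟨(k, true) :: v, ?_⟩
      rw [subst_cons, if_pos rfl, el_append, List.getD_eq_getElem _ _ hk]
    | inv_mul_cancel a ha b _ ih =>
      obtain ⟨y, hy, rfl⟩ := ha
      obtain ⟨v, rfl⟩ := ih
      obtain ⟨k, hk, rfl⟩ := List.getElem_of_mem hy
      refine ⟨(k, false) :: v, ?_⟩
      rw [subst_cons, if_neg (by simp), el_append, el_inv, List.getD_eq_getElem _ _ hk]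
  · rintro ⟨v, rfl⟩
    induction v with
    | nil =>
      rw [show subst Y [] = [] from rfl, el_nil]
      exact Subgroup.one_mem _
    | cons l v ih =>
      have h1 : el p (Y.getD l.1 []) ∈ gen p Y := by
        by_cases hk : l.1 < Y.length
        · rw [List.getD_eq_getElem _ _ hk]
          exact mem_gen p Y _ (List.getElem_mem hk)
        · rw [List.getD_eq_default _ _ (by omega), el_nil]
          exact Subgroup.one_mem _
      rw [subst_cons, el_append]
      refine Subgroup.mul_mem _ ?_ ih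
      split_ifs
      · exact h1
      · rw [el_inv]
        exact Subgroup.inv_mem _ h1

lemma el_eq_one_iff (p : Pres) (w : Wd) : el p w = 1 ↔ ∃ d, IsDer p.1 p.2 w d := by
  rw [← der_iff]
  exact PresentedGroup.mk_eq_one_iff

/-- The word which is trivial if `w` is the product of `f(u)` and `Y(v)`. -/
def test (I : Input) (u v : Wd) : Wd := I.2.2.2 ++ inv (subst (fs I.1 I.2.2.1) u ++ subst I.2.1 v)

lemma inDoubleCoset_iff (I : Input) :
    InDoubleCoset I ↔ ∃ x : Wd × Wd × Der, IsDer I.1.1.1 I.1.1.2 (test I x.1 x.2.1) x.2.2 := by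
  unfold InDoubleCoset par
  constructor
  · rintro ⟨a, ha, b, hb, h⟩
    obtain ⟨u, rfl⟩ := (mem_gen_iff _ _ _).1 ha
    obtain ⟨v, rfl⟩ := (mem_gen_iff _ _ _).1 hb
    have h1 : el I.1.1 (test I u v) = 1 := by
      unfold test
      rw [el_append, el_inv, el_append, h, mul_inv_cancel]
    obtain ⟨d, hd⟩ := (el_eq_one_iff _ _).1 h1
    exact ⟨(u, v, d), hd⟩
  · rintro ⟨⟨u, v, d⟩, hd⟩
    have h1 : el I.1.1 (test I u v) = 1 := (el_eq_one_iff _ _).2 ⟨d, hd⟩
    unfold test at h1
    rw [el_append, el_inv, el_append, mul_inv_eq_one] at h1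
    exact ⟨_, (mem_gen_iff _ _ _).2 ⟨u, rfl⟩, _, (mem_gen_iff _ _ _).2 ⟨v, rfl⟩, h1⟩

/-- Membership in double cosets is recursively enumerable. -/
theorem yes_re : REPred InDoubleCoset := by
  have h : PrimrecPred fun q : Input × (Wd × Wd × Der) =>
      IsDer q.1.1.1.1 q.1.1.1.2 (test q.1 q.2.1 q.2.2.1) q.2.2.2 := by
    have hI : Primrec fun q : Input × (Wd × Wd × Der) => q.1 := Primrec.fst
    have hx : Primrec fun q : Input × (Wd × Wd × Der) => q.2 := Primrec.snd
    have hD : Primrec fun q : Input × (Wd × Wd × Der) => q.1.1 := Primrec.fst.comp hI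
    have ht : Primrec fun q : Input × (Wd × Wd × Der) => test q.1 q.2.1 q.2.2.1 := by
      have hr : Primrec fun q : Input × (Wd × Wd × Der) => q.1.2 := Primrec.snd.comp hI
      have hr2 : Primrec fun q : Input × (Wd × Wd × Der) => q.1.2.2 := Primrec.snd.comp hr
      refine Primrec.list_append.comp (Primrec.snd.comp hr2) (pr_inv.comp ?_)
      exact Primrec.list_append.comp (pr_subst (pr_fs hD (Primrec.fst.comp hr2)) (Primrec.fst.comp hx))
        (pr_subst (Primrec.fst.comp hr) (Primrec.fst.comp (Primrec.snd.comp hx)))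
    exact pp_isDer.comp (Primrec.pair (Primrec.fst.comp hD)
      (Primrec.pair ht (Primrec.snd.comp (Primrec.snd.comp hx))))
  have h2 : REPred fun q : Input × (Wd × Wd × Der) =>
      IsDer q.1.1.1.1 q.1.1.1.2 (test q.1 q.2.1 q.2.2.1) q.2.2.2 := h.computablePred.to_re
  have h3 := Pool.Agent.H37.re_exists (α := Input) (β := Wd × Wd × Der)
    (p := fun I x => IsDer I.1.1.1 I.1.1.2 (test I x.1 x.2.1) x.2.2) h2
  exact h3.of_eq fun I => (inDoubleCoset_iff I).symm

/-- Membership in subgroups is recursively enumerable. -/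
theorem mem_re : REPred fun x : Pres × List Wd × Wd => el x.1 x.2.2 ∈ gen x.1 x.2.1 := by
  have h : PrimrecPred fun q : (Pres × List Wd × Wd) × (Wd × Der) =>
      IsDer q.1.1.1 q.1.1.2 (q.1.2.2 ++ inv (subst q.1.2.1 q.2.1)) q.2.2 := by
    have hx : Primrec fun q : (Pres × List Wd × Wd) × (Wd × Der) => q.1 := Primrec.fst
    have hy : Primrec fun q : (Pres × List Wd × Wd) × (Wd × Der) => q.2 := Primrec.snd
    have hx2 : Primrec fun q : (Pres × List Wd × Wd) × (Wd × Der) => q.1.2 := Primrec.snd.comp hx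
    exact pp_isDer.comp (Primrec.pair (Primrec.fst.comp hx)
      (Primrec.pair (Primrec.list_append.comp (Primrec.snd.comp hx2)
        (pr_inv.comp (pr_subst (Primrec.fst.comp hx2) (Primrec.fst.comp hy)))) (Primrec.snd.comp hy)))
  have h2 : REPred fun q : (Pres × List Wd × Wd) × (Wd × Der) =>
      IsDer q.1.1.1 q.1.1.2 (q.1.2.2 ++ inv (subst q.1.2.1 q.2.1)) q.2.2 := h.computablePred.to_re
  have h3 := Pool.Agent.H37.re_exists (α := Pres × List Wd × Wd) (β := Wd × Der)
    (p := fun x y => IsDer x.1.1 x.1.2 (x.2.2 ++ inv (subst x.2.1 y.1)) y.2) h2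
  refine h3.of_eq fun x => ?_
  rw [mem_gen_iff]
  constructor
  · rintro ⟨⟨v, d⟩, hd⟩
    have h1 := (el_eq_one_iff x.1 _).2 ⟨d, hd⟩
    rw [el_append, el_inv, mul_inv_eq_one] at h1
    exact ⟨v, h1⟩
  · rintro ⟨v, hv⟩
    obtain ⟨d, hd⟩ := (el_eq_one_iff x.1 (x.2.2 ++ inv (subst x.2.1 v))).1 (by
      rw [el_append, el_inv, hv, mul_inv_cancel])
    exact ⟨(v, d), hd⟩

theorem re_comp {α β : Type} [Primcodable α] [Primcodable β] {p : β → Prop} (hp : REPred p) {g : α → β}
    (hg : Computable g) : REPred fun a => p (g a) := Partrec.comp hp hg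

/-- Membership in subgroups. -/
def Mem (x : Pres × List Wd × Wd) : Prop := el x.1 x.2.2 ∈ gen x.1 x.2.1

lemma mem_re' : REPred Mem := mem_re

/-- The generators `t`, `Y`. -/
def gens (I : Input) : List Wd := [(I.1.1.1, true)] :: I.2.1

/-- The word `w⁻¹ t w`. -/
def conj (I : Input) : Wd := inv I.2.2.2 ++ (I.1.1.1, true) :: I.2.2.2

/-- The Dehn filling of the centralizer extension. -/
def filled (I : Input) (m : ℕ) : Pres := fill (ext I.1 I.2.2.1) m

/-- The parameters `m`, `Y'` give a certificate for `w ∉ P_i ⟨Y⟩`. -/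
def No (I : Input) (x : ℕ × List Wd) : Prop :=
  (∀ y ∈ gens I, Mem (filled I x.1, x.2, y)) ∧ Certificate (filled I x.1, x.2, conj I)

lemma pr_n : Primrec fun I : Input => I.1.1.1 := Primrec.fst.comp (Primrec.fst.comp Primrec.fst)

lemma pr_gens : Primrec gens :=
  Primrec.list_cons.comp (Primrec.list_cons.comp (pr_letter pr_n true) (Primrec.const []))
    (Primrec.fst.comp Primrec.snd)

lemma pr_conj : Primrec conj := by
  have hw : Primrec fun I : Input => I.2.2.2 := Primrec.snd.comp (Primrec.snd.comp Primrec.snd)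
  exact Primrec.list_append.comp (pr_inv.comp hw) (Primrec.list_cons.comp (pr_letter pr_n true) hw)

lemma pr_filled {α : Type} [Primcodable α] {I : α → Input} {m : α → ℕ} (hI : Primrec I) (hm : Primrec m) :
    Primrec fun a => filled (I a) (m a) :=
  pr_fill (pr_ext (Primrec.fst.comp hI) (Primrec.fst.comp (Primrec.snd.comp (Primrec.snd.comp hI)))) hm

lemma no_re1 : REPred fun z : (Input × (ℕ × List Wd)) × Wd => Mem (filled z.1.1 z.1.2.1, z.1.2.2, z.2) := by
  have hq : Primrec fun z : (Input × (ℕ × List Wd)) × Wd => z.1 := Primrec.fst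
  have hx : Primrec fun z : (Input × (ℕ × List Wd)) × Wd => z.1.2 := Primrec.snd.comp hq
  have hc : Primrec fun z : (Input × (ℕ × List Wd)) × Wd =>
      ((filled z.1.1 z.1.2.1, z.1.2.2, z.2) : Pres × List Wd × Wd) :=
    Primrec.pair (pr_filled (Primrec.fst.comp hq) (Primrec.fst.comp hx))
      (Primrec.pair (Primrec.snd.comp hx) Primrec.snd)
  exact re_comp mem_re' hc.to_comp

lemma no_re2 (h : REPred Certificate) : REPred fun q : Input × (ℕ × List Wd) =>
    Certificate (filled q.1 q.2.1, q.2.2, conj q.1) := by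
  have hx : Primrec fun q : Input × (ℕ × List Wd) => q.2 := Primrec.snd
  have hc : Primrec fun q : Input × (ℕ × List Wd) =>
      ((filled q.1 q.2.1, q.2.2, conj q.1) : Pres × List Wd × Wd) :=
    Primrec.pair (pr_filled Primrec.fst (Primrec.fst.comp hx))
      (Primrec.pair (Primrec.snd.comp hx) (pr_conj.comp Primrec.fst))
  exact re_comp h hc.to_comp

lemma no_re3 : REPred fun q : Input × (ℕ × List Wd) => ∀ y ∈ gens q.1, Mem (filled q.1 q.2.1, q.2.2, y) :=
  Pool.Agent.H37.re_forall_mem (α := Input × (ℕ × List Wd)) (β := Wd)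
    (p := fun q y => Mem (filled q.1 q.2.1, q.2.2, y)) no_re1 (l := fun q => gens q.1)
    (Pool.Agent.H37.CI.of_comp (pr_gens.comp Primrec.fst).to_comp)

theorem no_re (h : REPred Certificate) : REPred fun I : Input => ∃ x, No I x :=
  Pool.Agent.H37.re_exists (α := Input) (β := ℕ × List Wd) (p := No) (Pool.Agent.H37.re_and no_re3 (no_re2 h))

lemma ext_sub_fill (D : Deco) (i m : ℕ) : ∀ r ∈ (ext D i).1.2, r ∈ (fill (ext D i) m).2 := fun _ hr =>
  List.mem_append_left _ hr

/-- **The algorithm.** -/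
theorem algorithm (h : Known) : Algorithm := by
  obtain ⟨k, hk, hk'⟩ := Partrec.merge' (yes_re.map (Computable.const true).to₂)
    ((no_re h.certificates).map (Computable.const false).to₂)
  refine ⟨k, hk, ?_⟩
  rintro ⟨D, Y, i, w⟩ hI
  have hD : D.WF := hI.wf.deco
  have hY : ∀ y ∈ Y, Valid D.1.1 y := hI.wf.gens
  have hw : Valid D.1.1 w := hI.wf.word
  have hi : i < D.2.length := hI.wf.index
  have hex : InDoubleCoset (D, Y, i, w) ∨ ∃ x, No (D, Y, i, w) x := by
    by_cases hc : InDoubleCoset (D, Y, i, w)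
    · exact Or.inl hc
    · right
      obtain ⟨h1, h2⟩ := h.combination D Y i hI.inH hY hI.qc hi
      obtain ⟨m, Y', -, h3, h4⟩ := h.filling (ext D i) ([(D.1.1, true)] :: Y) (inv w ++ (D.1.1, true) :: w) h1 h2
        fun hm => hc (coset_of_mem D Y i w hD hY hw hi hm)
      exact ⟨(m, Y'), h3, h4⟩
  have hdis : InDoubleCoset (D, Y, i, w) → ¬ ∃ x, No (D, Y, i, w) x := by
    rintro hc ⟨⟨m, Y'⟩, h3, -, -, hm⟩
    apply hm
    have h4 := mem_of_coset D Y i w hD hY hw hi hc _ (ext_sub_fill D i m)
    have h5 : gen (filled (D, Y, i, w) m) (gens (D, Y, i, w)) ≤ gen (filled (D, Y, i, w) m) Y' := by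
      refine (Subgroup.closure_le _).2 ?_
      rintro _ ⟨y, hy, rfl⟩
      exact h3 y hy
    exact h5 h4
  obtain ⟨h1, h2⟩ := hk' (D, Y, i, w)
  have hdom : (k (D, Y, i, w)).Dom := by
    rw [h2]
    rcases hex with hc | hc
    · exact Or.inl ⟨hc, trivial⟩
    · exact Or.inr ⟨hc, trivial⟩
  refine ⟨(k (D, Y, i, w)).get hdom, Part.get_mem hdom, ?_⟩
  rcases h1 _ (Part.get_mem hdom) with h3 | h3
  · simp only [Part.mem_map_iff, Part.mem_assert_iff, Part.mem_some_iff, exists_prop, and_true, exists_const] at h3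
    rw [← h3.2]
    exact ⟨fun _ => h3.1, fun _ => rfl⟩
  · simp only [Part.mem_map_iff, Part.mem_assert_iff, Part.mem_some_iff, exists_prop, and_true, exists_const] at h3
    rw [← h3.2]
    exact ⟨fun h4 => absurd h4 (by simp), fun h4 => absurd h3.1 (hdis h4)⟩

end Pool.Agent.U937.DC
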