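import Pool.Agent.H665Simp.P_der_iff

/-!
# Decorated presentations, relative hyperbolicity, relatively quasi-convex subgroups
-/

set_option autoImplicit false

namespace Pool.Agent.U937.DC

open Pool.Agent.H665Simp (Wd inv relsN)

/-- A finite presentation: the number `n` of the generators `x_0, …, x_(n-1)` and the list of the relators. -/
abbrev Pres := ℕ × List Wd

/-- The group of a presentation; the letters `x_k`, `k ≥ n`, are trivial. -/
abbrev Grp (p : Pres) := PresentedGroup (relsN p.1 p.2)

/-- The element of a word. -/
def el (p : Pres) (w : Wd) : Grp p := PresentedGroup.mk (relsN p.1 p.2) (FreeGroup.mk w)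

/-- All letters of the word are `x_k ^ (±1)` with `k < n`. -/
def Valid (n : ℕ) (w : Wd) : Prop := ∀ l ∈ w, l.1 < n

/-- A finite decorated presentation: a presentation `⟨A ∣ R⟩` and for each `i < k` the list of the words `f_i(x)`,
`x ∈ X_i`, in the letters of `A` and the list `S_i` of words in the letters of `X_i`. -/
abbrev Deco := Pres × List (List Wd × List Wd)

/-- The words `f_i(x)`. -/
def fs (D : Deco) (i : ℕ) : List Wd := (D.2.getD i ([], [])).1

/-- The relators `S_i`. -/
def rs (D : Deco) (i : ℕ) : List Wd := (D.2.getD i ([], [])).2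

/-- The words of a decorated presentation are words in the right letters. -/
structure Deco.WF (D : Deco) : Prop where
  rel : ∀ r ∈ D.1.2, Valid D.1.1 r
  fs : ∀ i < D.2.length, ∀ f ∈ fs D i, Valid D.1.1 f
  rs : ∀ i < D.2.length, ∀ r ∈ rs D i, Valid (Pool.Agent.U937.DC.fs D i).length r

/-- The subgroup generated by the words of a list. -/
def gen (p : Pres) (Y : List Wd) : Subgroup (Grp p) := Subgroup.closure {g | ∃ y ∈ Y, g = el p y}

/-- The subgroup `P_i`. -/
def par (D : Deco) (i : ℕ) : Subgroup (Grp D.1) := gen D.1 (fs D i)

/-- The word in the letters of `A` which is obtained from a word in the letters of `X_i`. -/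
def subst (f : List Wd) (v : Wd) : Wd :=
  v.flatMap fun l => if l.2 = true then f.getD l.1 [] else inv (f.getD l.1 [])

/-- The maps `f_i` induce isomorphisms of `⟨X_i ∣ S_i⟩` and `P_i`. -/
def Represents (D : Deco) : Prop :=
  ∀ i < D.2.length, ∀ v : Wd, el ((fs D i).length, rs D i) v = 1 ↔ el D.1 (subst (fs D i) v) = 1

/-- The vertices of the cusped graph: the elements `g` of the group and the points `(g, i, n)` of depth `n + 1` of the
combinatorial horoballs over the cosets `g P_i`. -/
abbrev CV (D : Deco) := Grp D.1 ⊕ (Grp D.1 × Fin D.2.length × ℕ)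

/-- The edges of the cusped graph: the edges of the Cayley graph; the vertical edges; the horizontal edges of depth
`n + 1` between points whose distance in the Cayley graph of `P_i` is at most `2 ^ (n + 1)`. -/
inductive CuspEdge (D : Deco) : CV D → CV D → Prop
  | cayley (g : Grp D.1) (w : Wd) (h : w.length ≤ 1) : CuspEdge D (Sum.inl g) (Sum.inl (g * el D.1 w))
  | down (g : Grp D.1) (i : Fin D.2.length) : CuspEdge D (Sum.inl g) (Sum.inr (g, i, 0))
  | vertical (g : Grp D.1) (i : Fin D.2.length) (n : ℕ) : CuspEdge D (Sum.inr (g, i, n)) (Sum.inr (g, i, n + 1))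
  | horizontal (g : Grp D.1) (i : Fin D.2.length) (n : ℕ) (v : Wd) (h : v.length ≤ 2 ^ (n + 1)) :
      CuspEdge D (Sum.inr (g, i, n)) (Sum.inr (g * el D.1 (subst (fs D i) v), i, n))

/-- The cusped graph of Groves and Manning; without parabolic subgroups it is the Cayley graph. -/
def cusped (D : Deco) : SimpleGraph (CV D) := SimpleGraph.fromRel (CuspEdge D)

/-- Gromov hyperbolic graphs (four point condition). -/
def Hyperbolic {V : Type} (Γ : SimpleGraph V) : Prop :=
  ∃ δ : ℕ, ∀ x y z w : V, Γ.dist x y + Γ.dist z w ≤ max (Γ.dist x z + Γ.dist y w) (Γ.dist x w + Γ.dist y z) + δ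

/-- The relative Cayley graph `Cay(π, A ∪ ⋃ P_i)`. -/
def relCayley (D : Deco) : SimpleGraph (Grp D.1) :=
  SimpleGraph.fromRel fun g h => (∃ w : Wd, w.length ≤ 1 ∧ h = g * el D.1 w) ∨ ∃ i < D.2.length, g⁻¹ * h ∈ par D i

/-- The subgroup generated by `Y` is relatively quasi-convex: for some `σ` each vertex `v` of each geodesic of the relative
Cayley graph between two elements of the subgroup is at distance at most `σ`, in the word metric of `A`, of the
subgroup. Without parabolic subgroups this is quasi-convexity. -/
def RelQC (D : Deco) (Y : List Wd) : Prop :=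
  ∃ σ : ℕ, ∀ x ∈ gen D.1 Y, ∀ y ∈ gen D.1 Y, ∀ v : Grp D.1,
    (relCayley D).dist x v + (relCayley D).dist v y = (relCayley D).dist x y →
      ∃ u : Wd, u.length ≤ σ ∧ v * el D.1 u ∈ gen D.1 Y

/-- The decorated presentation represents a decorated group of the class `ℋ`: hyperbolic relative to finitely many
finitely generated abelian subgroups. -/
structure InH (D : Deco) : Prop where
  wf : D.WF
  represents : Represents D
  hyperbolic : Hyperbolic (cusped D)
  abelian : ∀ i < D.2.length, ∀ f ∈ fs D i, ∀ g ∈ fs D i, el D.1 f * el D.1 g = el D.1 g * el D.1 f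

/-- The inputs: a decorated presentation, a list `Y` of words, an index `i`, a word `w`. -/
abbrev Input := Deco × List Wd × ℕ × Wd

/-- The words in `Y` and `w` are words in the letters of `A`, and `i` is an index. -/
structure WFI (I : Input) : Prop where
  deco : I.1.WF
  gens : ∀ y ∈ I.2.1, Valid I.1.1.1 y
  word : Valid I.1.1.1 I.2.2.2
  index : I.2.2.1 < I.1.2.length

/-- The two conditions on the inputs of Q1. -/
structure Admissible (I : Input) : Prop where
  wf : WFI I
  inH : InH I.1
  qc : RelQC I.1 I.2.1

/-- The element `w` is in the double coset `P_i ⟨Y⟩`. -/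
def InDoubleCoset (I : Input) : Prop :=
  ∃ p ∈ par I.1 I.2.2.1, ∃ q ∈ gen I.1.1 I.2.1, el I.1.1 I.2.2.2 = p * q

/-- The commutator of the letter `x_t` and the word `f`. -/
def com (t : ℕ) (f : Wd) : Wd := (t, true) :: (f ++ (t, false) :: inv f)

/-- The centralizer extension `π *_(P_i) (P_i × ⟨t⟩)`, where `t` is a new generator, with `P_i` replaced by
`P_i × ⟨t⟩`. -/
def ext (D : Deco) (i : ℕ) : Deco :=
  ((D.1.1 + 1, D.1.2 ++ (fs D i).map (com D.1.1)),
    (List.range D.2.length).map fun j =>
      if j = i then (fs D i ++ [[(D.1.1, true)]],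
        rs D i ++ (List.range (fs D i).length).map fun k => com (fs D i).length [(k, true)])
      else (fs D j, rs D j))

/-- The `m`-th power of a word. -/
def pw (m : ℕ) (f : Wd) : Wd := (List.range m).flatMap fun _ => f

/-- The Dehn filling: the `m`-th powers of the generators of all the `P_i` are killed. -/
def fill (D : Deco) (m : ℕ) : Pres := (D.1.1, D.1.2 ++ D.2.flatMap fun P => P.1.map (pw m))

/-- The triples of a presentation of a hyperbolic group, generators `Y` of a quasi-convex subgroup, and a word which is not in
the subgroup. -/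
def Certificate (x : Pres × List Wd × Wd) : Prop :=
  Hyperbolic (cusped (x.1, [])) ∧ RelQC (x.1, []) x.2.1 ∧ el x.1 x.2.2 ∉ gen x.1 x.2.1

/-- The published theorems which are used. -/
structure Known : Prop where
  /-- Papasoglu, Gitik, Kapovich: there is an algorithm which finds the constants of a hyperbolic group and of a quasi-convex
  subgroup and decides membership, so the certificates are recursively enumerable. -/
  certificates : REPred Certificate
  /-- Manning and Martinez-Pedroza, Agol, Groves and Manning, Osin: an element outside of a relatively quasi-convex subgroup is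
  outside of a fully relatively quasi-convex subgroup `⟨Y'⟩` which contains it, and is so in a suitable hyperbolic Dehn
  filling, in which the image of `⟨Y'⟩` is quasi-convex. -/
  filling : ∀ (D : Deco) (Y : List Wd) (w : Wd), InH D → RelQC D Y → el D.1 w ∉ gen D.1 Y →
    ∃ (m : ℕ) (Y' : List Wd), 0 < m ∧ (∀ y ∈ Y, el (fill D m) y ∈ gen (fill D m) Y') ∧
      Certificate (fill D m, Y', w)
  /-- Dahmani, Osin; Bigdely and Wise: the centralizer extension is hyperbolic relative to the new family of subgroups, and
  `⟨Y, t⟩` is relatively quasi-convex. -/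
  combination : ∀ (D : Deco) (Y : List Wd) (i : ℕ), InH D → (∀ y ∈ Y, Valid D.1.1 y) → RelQC D Y →
    i < D.2.length → InH (ext D i) ∧ RelQC (ext D i) ([(D.1.1, true)] :: Y)

/-- Q1: there is an algorithm which decides for all admissible inputs whether `w ∈ P_i ⟨Y⟩`. -/
def Algorithm : Prop :=
  ∃ f : Input →. Bool, Partrec f ∧ ∀ I : Input, Admissible I → ∃ b ∈ f I, b = true ↔ InDoubleCoset I

end Pool.Agent.U937.DC
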