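import Mathlib

/-!
# Double cosets and centralizer extensions

Let `P` and `H` be subgroups of a group `G` and let `E = ⟨G, t ∣ [t, P] = 1⟩` be the amalgam of `G` and
`P × ℤ` along `P`. Then `w ∈ P H` if and only if `w⁻¹ t w ∈ ⟨H, t⟩`.
-/

set_option autoImplicit false

namespace Pool.Agent.U937.DC

open HNNExtension

variable {G : Type*} [Group G] (P H : Subgroup G)

/-- The centralizer extension `⟨G, t ∣ [t, P] = 1⟩`. -/
abbrev Ext : Type _ := HNNExtension G P P (MulEquiv.refl P)

lemma mem_toSub (u : ℤˣ) (g : G) : g ∈ toSubgroup P P u ↔ g ∈ P := by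
  rcases Int.units_eq_one_or u with rfl | rfl
  · rw [toSubgroup_one]
  · rw [toSubgroup_neg_one]

lemma t_comm (p : G) (hp : p ∈ P) : (t : Ext P) * of p = of p * t := by
  have h := t_mul_of (φ := MulEquiv.refl P) ⟨p, hp⟩
  exact h

lemma t_pow_comm (p : G) (hp : p ∈ P) (u : ℤ) : (t : Ext P) ^ u * of p = of p * t ^ u := by
  have h : Commute (t : Ext P) (of p) := t_comm P p hp
  exact (h.zpow_left u)

/-- The products of the reduced words with letters in `H`. -/
def Red : Set (Ext P) :=
  {x | ∃ W : NormalWord.ReducedWord G P P, W.head ∈ H ∧ (∀ a ∈ W.toList, a.2 ∈ H) ∧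
    W.prod (MulEquiv.refl P) = x}

lemma red_of_mul (g : G) (hg : g ∈ H) (x : Ext P) (hx : x ∈ Red P H) : of g * x ∈ Red P H := by
  obtain ⟨W, h1, h2, rfl⟩ := hx
  refine ⟨⟨g * W.head, W.toList, W.chain⟩, H.mul_mem hg h1, h2, ?_⟩
  simp only [NormalWord.ReducedWord.prod, map_mul, mul_assoc]

lemma red_t_mul (u : ℤˣ) (x : Ext P) (hx : x ∈ Red P H) : (t : Ext P) ^ (u : ℤ) * x ∈ Red P H := by
  obtain ⟨W, h1, h2, rfl⟩ := hx
  obtain ⟨g, l, hc⟩ := W
  dsimp only at h1 h2
  by_cases hcan : g ∈ P ∧ ∃ u' g' l', l = (u', g') :: l' ∧ u' = -u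
  · obtain ⟨hgP, u', g', l', rfl, rfl⟩ := hcan
    refine ⟨⟨g * g', l', (List.isChain_cons.1 hc).2⟩, H.mul_mem h1 (h2 _ List.mem_cons_self),
      fun a ha => h2 a (List.mem_cons_of_mem _ ha), ?_⟩
    simp only [NormalWord.ReducedWord.prod, map_mul, List.map_cons, List.prod_cons, Units.val_neg,
      ← mul_assoc]
    rw [t_pow_comm P g hgP, mul_assoc (of g) (t ^ (u : ℤ)), ← zpow_add, add_neg_cancel, zpow_zero,
      mul_one]
  · refine ⟨⟨1, (u, g) :: l, ?_⟩, H.one_mem, ?_, ?_⟩
    · rw [List.isChain_cons]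
      refine ⟨fun b hb hg => ?_, hc⟩
      rw [mem_toSub] at hg
      cases l with
      | nil => simp at hb
      | cons b' l' =>
        rw [List.head?_cons, Option.mem_some_iff] at hb
        subst hb
        by_contra hne
        apply hcan
        refine ⟨hg, b'.1, b'.2, l', rfl, ?_⟩
        have := Int.units_ne_iff_eq_neg.1 (Ne.symm hne)
        exact this
    · intro a ha
      rcases List.mem_cons.1 ha with rfl | ha
      · exact h1
      · exact h2 a ha
    · simp only [NormalWord.ReducedWord.prod, map_one, one_mul, List.map_cons, List.prod_cons,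
        mul_assoc]

lemma mem_red (x : Ext P) (hx : x ∈ Subgroup.closure ((of '' (H : Set G)) ∪ {(t : Ext P)})) :
    x ∈ Red P H := by
  induction hx using Subgroup.closure_induction_left with
  | one => exact ⟨NormalWord.ReducedWord.empty G P P, H.one_mem, by simp, by
      simp [NormalWord.ReducedWord.prod]⟩
  | mul_left a ha b hb ih =>
    rcases ha with ⟨g, hg, rfl⟩ | ha
    · exact red_of_mul P H g hg _ ih
    · rw [Set.mem_singleton_iff] at ha
      subst ha
      have := red_t_mul P H 1 _ ih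
      simpa using this
  | inv_mul_cancel a ha b hb ih =>
    rcases ha with ⟨g, hg, rfl⟩ | ha
    · rw [← map_inv]
      exact red_of_mul P H g⁻¹ (H.inv_mem hg) _ ih
    · rw [Set.mem_singleton_iff] at ha
      subst ha
      have := red_t_mul P H (-1) _ ih
      simpa using this

/-- **Double cosets and the centralizer extension.** -/
theorem double_coset (w : G)
    (h : of w⁻¹ * (t : Ext P) * of w ∈ Subgroup.closure ((of '' (H : Set G)) ∪ {(t : Ext P)})) :
    ∃ p ∈ P, ∃ q ∈ H, w = p * q := by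
  obtain ⟨W, h1, -, h3⟩ := mem_red P H _ h
  let W0 : NormalWord.ReducedWord G P P := ⟨w⁻¹, [(1, w)], List.isChain_singleton _⟩
  have h4 : W0.prod (MulEquiv.refl P) = W.prod (MulEquiv.refl P) := by
    rw [h3]
    simp [W0, NormalWord.ReducedWord.prod, mul_assoc]
  have h5 := (ReducedWord.map_fst_eq_and_of_prod_eq (MulEquiv.refl P) h4).2 1 (by simp [W0])
  rw [mem_toSub] at h5
  have h6 : W0.head = w⁻¹ := rfl
  rw [h6, inv_inv] at h5
  exact ⟨w * W.head, h5, W.head⁻¹, H.inv_mem h1, by group⟩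

end Pool.Agent.U937.DC
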