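import Pool.Agent.U937.DC.Defs
import Pool.Agent.U937.DC.HNN

/-!
# The reduction of double cosets to subgroups
-/

set_option autoImplicit false

namespace Pool.Agent.U937.DC

open Pool.Agent.H665Simp (Wd inv relsN)

lemma mk_cons (l : ℕ × Bool) (w : Wd) :
    FreeGroup.mk (l :: w) = (if l.2 = true then FreeGroup.of l.1 else (FreeGroup.of l.1)⁻¹) * FreeGroup.mk w := by
  have h : FreeGroup.mk (l :: w) = FreeGroup.mk [l] * FreeGroup.mk w := by
    rw [FreeGroup.mul_mk]
    rfl
  rw [h]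
  congr 1
  obtain ⟨a, b⟩ := l
  cases b
  · rw [if_neg (by simp), FreeGroup.of, FreeGroup.inv_mk]
    rfl
  · rfl

lemma hom_congr {M : Type*} [Group M] (θ θ' : FreeGroup ℕ →* M) (w : Wd)
    (h : ∀ l ∈ w, θ (FreeGroup.of l.1) = θ' (FreeGroup.of l.1)) : θ (FreeGroup.mk w) = θ' (FreeGroup.mk w) := by
  induction w with
  | nil => rw [← FreeGroup.one_eq_mk, map_one, map_one]
  | cons l w ih =>
    rw [mk_cons, map_mul, map_mul, ih fun l' hl' => h l' (List.mem_cons_of_mem _ hl')]
    congr 1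
    have h1 := h l List.mem_cons_self
    split_ifs
    · exact h1
    · rw [map_inv, map_inv, h1]

lemma el_nil (p : Pres) : el p [] = 1 := by
  unfold el
  rw [← FreeGroup.one_eq_mk, map_one]

lemma el_append (p : Pres) (u v : Wd) : el p (u ++ v) = el p u * el p v := by
  unfold el
  rw [← FreeGroup.mul_mk, map_mul]

lemma el_inv (p : Pres) (u : Wd) : el p (inv u) = (el p u)⁻¹ := by
  unfold el
  rw [Pool.Agent.H665Simp.inv_eq, map_inv]

lemma el_cons (p : Pres) (l : ℕ × Bool) (w : Wd) : el p (l :: w) = el p [l] * el p w := by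
  rw [← el_append]
  rfl

lemma el_neg (p : Pres) (k : ℕ) : el p [(k, false)] = (el p [(k, true)])⁻¹ := by
  rw [← el_inv]
  rfl

lemma el_com (p : Pres) (t : ℕ) (f : Wd) :
    el p (com t f) = el p [(t, true)] * el p f * (el p [(t, true)])⁻¹ * (el p f)⁻¹ := by
  unfold com
  rw [el_cons, el_append, el_cons p (t, false), el_neg, el_inv]
  group

lemma el_surj (p : Pres) (g : Grp p) : ∃ w : Wd, g = el p w := by
  obtain ⟨x, rfl⟩ := QuotientGroup.mk_surjective g
  refine ⟨x.toWord, ?_⟩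
  unfold el
  rw [FreeGroup.mk_toWord]
  rfl

/-- The hom of the group of a presentation given by the values of the generators. -/
def homOf {M : Type*} [Group M] (p : Pres) (φ : ℕ → M) (h1 : ∀ k, p.1 ≤ k → φ k = 1)
    (h2 : ∀ r ∈ p.2, FreeGroup.lift φ (FreeGroup.mk r) = 1) : Grp p →* M :=
  PresentedGroup.toGroup (rels := relsN p.1 p.2) (f := φ) (by
    rintro r (⟨k, hk, rfl⟩ | ⟨w, hw, rfl⟩)
    · rw [FreeGroup.lift_apply_of, h1 k hk]
    · exact h2 w hw)

lemma homOf_el {M : Type*} [Group M] (p : Pres) (φ : ℕ → M) (h1 : ∀ k, p.1 ≤ k → φ k = 1)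
    (h2 : ∀ r ∈ p.2, FreeGroup.lift φ (FreeGroup.mk r) = 1) (w : Wd) :
    homOf p φ h1 h2 (el p w) = FreeGroup.lift φ (FreeGroup.mk w) := by
  have h : (homOf p φ h1 h2).comp (PresentedGroup.mk (relsN p.1 p.2)) = FreeGroup.lift φ := by
    apply FreeGroup.ext_hom
    intro k
    rw [FreeGroup.lift_apply_of]
    exact PresentedGroup.toGroup.of (rels := relsN p.1 p.2) (f := φ) (by
      rintro r (⟨k, hk, rfl⟩ | ⟨w, hw, rfl⟩)
      · rw [FreeGroup.lift_apply_of, h1 k hk]
      · exact h2 w hw)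
  exact congrArg (fun θ => θ (FreeGroup.mk w)) h

lemma el_zero (p : Pres) (k : ℕ) (hk : p.1 ≤ k) : el p [(k, true)] = 1 := by
  exact PresentedGroup.mk_eq_one_iff.2 (Subgroup.subset_normalClosure (Or.inl ⟨k, hk, rfl⟩))

lemma el_rel (p : Pres) (r : Wd) (hr : r ∈ p.2) : el p r = 1 := by
  exact PresentedGroup.mk_eq_one_iff.2 (Subgroup.subset_normalClosure (Or.inr ⟨r, hr, rfl⟩))

lemma lift_el (p : Pres) (w : Wd) :
    FreeGroup.lift (fun k => el p [(k, true)]) (FreeGroup.mk w) = el p w := by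
  have h : FreeGroup.lift (fun k => el p [(k, true)]) = PresentedGroup.mk (relsN p.1 p.2) := by
    apply FreeGroup.ext_hom
    intro k
    rw [FreeGroup.lift_apply_of]
    rfl
  rw [h]
  rfl

lemma mem_gen (p : Pres) (Y : List Wd) (y : Wd) (hy : y ∈ Y) : el p y ∈ gen p Y :=
  Subgroup.subset_closure ⟨y, hy, rfl⟩

lemma gen_mono (p : Pres) (Y Y' : List Wd) (h : ∀ y ∈ Y, y ∈ Y') : gen p Y ≤ gen p Y' :=
  Subgroup.closure_mono fun _ ⟨y, hy, e⟩ => ⟨y, h y hy, e⟩

/-- Commuting words. -/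
lemma comm_of_com (p : Pres) (t : ℕ) (f : Wd) (h : com t f ∈ p.2) : Commute (el p [(t, true)]) (el p f) := by
  have h1 := el_rel p _ h
  rw [el_com, mul_inv_eq_one, mul_inv_eq_iff_eq_mul] at h1
  exact h1

/-- **If `w` is in `P_i ⟨Y⟩` then `w⁻¹ t w` is in `⟨Y, t⟩` in all quotients of the centralizer extension.** -/
theorem mem_of_coset (D : Deco) (Y : List Wd) (i : ℕ) (w : Wd) (hD : D.WF) (hY : ∀ y ∈ Y, Valid D.1.1 y)
    (hw : Valid D.1.1 w) (hi : i < D.2.length) (h : InDoubleCoset (D, Y, i, w)) (q : Pres)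
    (hq : ∀ r ∈ (ext D i).1.2, r ∈ q.2) :
    el q (inv w ++ (D.1.1, true) :: w) ∈ gen q ([(D.1.1, true)] :: Y) := by
  obtain ⟨a, ha, b, hb, hab⟩ := h
  let φ : ℕ → Grp q := fun k => if k < D.1.1 then el q [(k, true)] else 1
  have hval : ∀ v : Wd, Valid D.1.1 v → FreeGroup.lift φ (FreeGroup.mk v) = el q v := by
    intro v hv
    rw [← lift_el q v]
    refine hom_congr _ _ v fun l hl => ?_
    rw [FreeGroup.lift_apply_of, FreeGroup.lift_apply_of]
    exact if_pos (hv l hl)
  let η : Grp D.1 →* Grp q := homOf D.1 φ (fun k hk => if_neg (by omega)) (fun r hr => by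
    rw [hval r (hD.rel r hr)]
    exact el_rel q r (hq r (List.mem_append_left _ hr)))
  have hη : ∀ v : Wd, Valid D.1.1 v → η (el D.1 v) = el q v := by
    intro v hv
    rw [← hval v hv]
    exact homOf_el _ _ _ _ v
  have hcom : Commute (el q [(D.1.1, true)]) (η a) := by
    clear hab
    change a ∈ Subgroup.closure _ at ha
    induction ha using Subgroup.closure_induction with
    | mem x hx =>
      obtain ⟨f, hf, rfl⟩ := hx
      rw [hη f (hD.fs i hi f hf)]
      refine comm_of_com q _ f (hq _ (List.mem_append_right _ (List.mem_map_of_mem hf)))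
    | one => rw [map_one]; exact Commute.one_right _
    | mul x y _ _ hx hy => rw [map_mul]; exact hx.mul_right hy
    | inv x _ hx => rw [map_inv]; exact hx.inv_right
  have hb' : η b ∈ gen q ([(D.1.1, true)] :: Y) := by
    have h1 : gen D.1 Y ≤ (gen q ([(D.1.1, true)] :: Y)).comap η := by
      refine (Subgroup.closure_le _).2 ?_
      rintro _ ⟨y, hy, rfl⟩
      rw [SetLike.mem_coe, Subgroup.mem_comap, hη y (hY y hy)]
      exact mem_gen q _ y (List.mem_cons_of_mem _ hy)
    exact h1 hb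
  have hab' : el q w = η a * η b := by
    rw [← hη w hw, ← map_mul]
    exact congrArg η hab
  rw [el_append, el_inv, el_cons, hab']
  have h2 : (η a * η b)⁻¹ * (el q [(D.1.1, true)] * (η a * η b)) = (η b)⁻¹ * el q [(D.1.1, true)] * η b := by
    rw [mul_inv_rev, ← mul_assoc (el q [(D.1.1, true)]), hcom.eq]
    group
  rw [h2]
  exact Subgroup.mul_mem _ (Subgroup.mul_mem _ (Subgroup.inv_mem _ hb') (mem_gen q _ _ List.mem_cons_self)) hb'

/-- **If `w⁻¹ t w` is in `⟨Y, t⟩` in the centralizer extension then `w` is in `P_i ⟨Y⟩`.** -/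
theorem coset_of_mem (D : Deco) (Y : List Wd) (i : ℕ) (w : Wd) (hD : D.WF) (hY : ∀ y ∈ Y, Valid D.1.1 y)
    (hw : Valid D.1.1 w) (hi : i < D.2.length)
    (h : el (ext D i).1 (inv w ++ (D.1.1, true) :: w) ∈ gen (ext D i).1 ([(D.1.1, true)] :: Y)) :
    InDoubleCoset (D, Y, i, w) := by
  classical
  let E := Ext (par D i)
  let φ : ℕ → E := fun k => if k < D.1.1 then HNNExtension.of (el D.1 [(k, true)]) else
    if k = D.1.1 then HNNExtension.t else 1
  have hval : ∀ v : Wd, Valid D.1.1 v → FreeGroup.lift φ (FreeGroup.mk v) = HNNExtension.of (el D.1 v) := by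
    intro v hv
    have h1 : FreeGroup.lift φ (FreeGroup.mk v) =
        ((HNNExtension.of : Grp D.1 →* E).comp (FreeGroup.lift fun k => el D.1 [(k, true)])) (FreeGroup.mk v) := by
      refine hom_congr _ _ v fun l hl => ?_
      rw [MonoidHom.comp_apply, FreeGroup.lift_apply_of, FreeGroup.lift_apply_of]
      exact if_pos (hv l hl)
    rw [h1, MonoidHom.comp_apply, lift_el]
  have ht : φ D.1.1 = HNNExtension.t := by
    change (if D.1.1 < D.1.1 then _ else if D.1.1 = D.1.1 then _ else _) = _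
    rw [if_neg (lt_irrefl _), if_pos rfl]
  have hmul : ∀ u v : Wd, FreeGroup.lift φ (FreeGroup.mk (u ++ v)) =
      FreeGroup.lift φ (FreeGroup.mk u) * FreeGroup.lift φ (FreeGroup.mk v) := by
    intro u v
    rw [← FreeGroup.mul_mk, map_mul]
  have hinv : ∀ u : Wd, FreeGroup.lift φ (FreeGroup.mk (inv u)) = (FreeGroup.lift φ (FreeGroup.mk u))⁻¹ := by
    intro u
    rw [Pool.Agent.H665Simp.inv_eq, map_inv]
  have hcons : ∀ v : Wd, FreeGroup.lift φ (FreeGroup.mk ((D.1.1, true) :: v)) =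
      HNNExtension.t * FreeGroup.lift φ (FreeGroup.mk v) := by
    intro v
    rw [mk_cons, map_mul, if_pos rfl, FreeGroup.lift_apply_of, ht]
  have hcons' : ∀ v : Wd, FreeGroup.lift φ (FreeGroup.mk ((D.1.1, false) :: v)) =
      HNNExtension.t⁻¹ * FreeGroup.lift φ (FreeGroup.mk v) := by
    intro v
    rw [mk_cons, map_mul, if_neg (by simp), map_inv, FreeGroup.lift_apply_of, ht]
  let ψ : Grp (ext D i).1 →* E := homOf (ext D i).1 φ (fun k hk => by
      have hk' : D.1.1 + 1 ≤ k := hk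
      change (if k < D.1.1 then _ else if k = D.1.1 then _ else _) = _
      rw [if_neg (by omega), if_neg (by omega)]) (fun r hr => by
    rcases List.mem_append.1 hr with hr | hr
    · rw [hval r (hD.rel r hr), el_rel D.1 r hr, map_one]
    · obtain ⟨f, hf, rfl⟩ := List.mem_map.1 hr
      unfold com
      rw [hcons, hmul, hcons', hinv, hval f (hD.fs i hi f hf)]
      have h1 := t_comm (par D i) (el D.1 f) (mem_gen D.1 _ f hf)
      rw [← mul_assoc, ← mul_assoc, h1]
      group)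
  have hψ : ∀ v : Wd, ψ (el (ext D i).1 v) = FreeGroup.lift φ (FreeGroup.mk v) := fun v => homOf_el _ _ _ _ v
  have h1 : gen (ext D i).1 ([(D.1.1, true)] :: Y) ≤
      (Subgroup.closure ((HNNExtension.of '' (gen D.1 Y : Set (Grp D.1))) ∪ {(HNNExtension.t : E)})).comap ψ := by
    refine (Subgroup.closure_le _).2 ?_
    rintro _ ⟨y, hy, rfl⟩
    rw [SetLike.mem_coe, Subgroup.mem_comap, hψ]
    rcases List.mem_cons.1 hy with rfl | hy
    · rw [hcons, ← FreeGroup.one_eq_mk, map_one, mul_one]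
      exact Subgroup.subset_closure (Or.inr rfl)
    · rw [hval y (hY y hy)]
      exact Subgroup.subset_closure (Or.inl ⟨_, mem_gen D.1 Y y hy, rfl⟩)
  have h2 := h1 h
  rw [Subgroup.mem_comap, hψ, hmul, hinv, hcons, hval w hw, ← map_inv, ← mul_assoc] at h2
  obtain ⟨a, ha, b, hb, hab⟩ := double_coset (par D i) (gen D.1 Y) (el D.1 w) h2
  exact ⟨a, ha, b, hb, hab⟩

end Pool.Agent.U937.DC
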